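import Pool.Agent.Y921.SR.Pencil
import Pool.Agent.Y921.FE.Pol
import Pool.Agent.Y921.FE.Win

/-!
# Determinants of matrices of linear forms as polynomials
-/

set_option autoImplicit false

open Module

namespace Pool.Agent.Y921.SR

open Pool.Agent.Y921.FE MvPolynomial

section Gen

variable {R : Type*} [CommRing R] {σ : Type*}

/-- the degree of a determinant of linear forms -/
theorem det_deg {n : ℕ} (M : Matrix (Fin n) (Fin n) (MvPolynomial σ R)) (h : ∀ i j, (M i j).totalDegree ≤ 1) :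
    M.det.totalDegree ≤ n := by
  rw [Matrix.det_apply]
  refine totalDegree_finsetSum_le fun τ _ => ?_
  have h1 : (∏ i, M (τ i) i).totalDegree ≤ n := by
    refine (totalDegree_finset_prod _ _).trans ?_
    refine (Finset.sum_le_card_nsmul _ _ 1 fun i _ => h _ _).trans ?_
    simp
  rcases Int.units_eq_one_or (Equiv.Perm.sign τ) with h2 | h2
  · rw [h2, one_smul]; exact h1
  · rw [h2, Units.neg_smul, one_smul, totalDegree_neg]; exact h1

end Gen

section Tup

variable {σ : Type*}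

/-- all coefficients in the `k`-th power of `E` -/
def CoeffIn (E : Submodule ℚ ℂ) (k : ℕ) (f : MvPolynomial σ ℂ) : Prop := ∀ s, f.coeff s ∈ E ^ k

theorem CoeffIn.mul {E : Submodule ℚ ℂ} {k l : ℕ} {f g : MvPolynomial σ ℂ} (hf : CoeffIn E k f) (hg : CoeffIn E l g) :
    CoeffIn E (k + l) (f * g) := by
  classical
  intro s
  rw [coeff_mul, pow_add]
  exact Submodule.sum_mem _ fun p _ => Submodule.mul_mem_mul (hf _) (hg _)

theorem CoeffIn.prod {E : Submodule ℚ ℂ} {ι : Type*} (s : Finset ι) (f : ι → MvPolynomial σ ℂ)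
    (hf : ∀ i ∈ s, CoeffIn E 1 (f i)) : CoeffIn E s.card (∏ i ∈ s, f i) := by
  classical
  induction s using Finset.induction_on with
  | empty =>
    intro j
    rw [Finset.card_empty, Finset.prod_empty, pow_zero, coeff_one]
    split_ifs
    · exact Submodule.one_le.1 le_rfl
    · exact Submodule.zero_mem _
  | insert a s ha ih =>
    rw [Finset.card_insert_of_notMem ha, Finset.prod_insert ha, add_comm]
    exact (hf a (Finset.mem_insert_self _ _)).mul (ih (fun i hi => hf i (Finset.mem_insert_of_mem hi)))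

theorem CoeffIn.mono {E : Submodule ℚ ℂ} (hE : (1 : ℂ) ∈ E) {k l : ℕ} (hkl : k ≤ l) {f : MvPolynomial σ ℂ}
    (hf : CoeffIn E k f) : CoeffIn E l f := fun j => pow_le_pow_right' (Submodule.one_le.2 hE) hkl (hf j)

theorem det_coeff {E : Submodule ℚ ℂ} {n : ℕ} (M : Matrix (Fin n) (Fin n) (MvPolynomial σ ℂ))
    (h : ∀ i j, CoeffIn E 1 (M i j)) : CoeffIn E n M.det := by
  intro k
  rw [Matrix.det_apply, coeff_sum]
  refine Submodule.sum_mem _ fun τ _ => ?_
  have h1 : CoeffIn E n (∏ i, M (τ i) i) := by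
    have := CoeffIn.prod (E := E) (Finset.univ : Finset (Fin n)) (fun i => M (τ i) i) (fun i _ => h _ _)
    rwa [Finset.card_univ, Fintype.card_fin] at this
  rcases Int.units_eq_one_or (Equiv.Perm.sign τ) with h2 | h2
  · rw [h2, one_smul]; exact h1 k
  · rw [h2, Units.neg_smul, one_smul, coeff_neg]; exact Submodule.neg_mem _ (h1 k)

theorem finrank_pow_le (E : Submodule ℚ ℂ) [Module.Finite ℚ E] (m : ℕ) (hm : finrank ℚ E ≤ m) (k : ℕ) :
    Module.Finite ℚ (E ^ k : Submodule ℚ ℂ) ∧ finrank ℚ (E ^ k : Submodule ℚ ℂ) ≤ m ^ k := by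
  induction k with
  | zero =>
    rw [pow_zero, Submodule.one_eq_range]
    constructor
    · infer_instance
    · refine (LinearMap.finrank_range_le _).trans ?_
      simp
  | succ k ih =>
    obtain ⟨h1, h2⟩ := ih
    rw [pow_succ]
    obtain ⟨h3, h4⟩ := finrank_mul_le (E ^ k) E
    exact ⟨h3, h4.trans (by rw [pow_succ]; exact Nat.mul_le_mul h2 hm)⟩

variable [Fintype σ]

/-- the determinant polynomial -/
noncomputable def DPn (K : IntermediateField ℚ ℂ) {n : ℕ} (W : Fin n → Fin n → ℂ) (C : Fin n → Fin n → σ → K) :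
    MvPolynomial σ ℂ := (Matrix.of fun i j => Lf K (W i j) (C i j)).det

theorem DPn_aeval (K : IntermediateField ℚ ℂ) {n : ℕ} (W : Fin n → Fin n → ℂ) (C : Fin n → Fin n → σ → K) (x : σ → ℂ) :
    aeval x (DPn K W C) = (Mt W C x).det := by
  rw [DPn, AlgHom.map_det]
  congr 1
  ext i j
  simp only [AlgHom.mapMatrix_apply, Matrix.map_apply, Matrix.of_apply, Lf_aeval, Mt]

theorem DPn_deg (K : IntermediateField ℚ ℂ) {n : ℕ} (W : Fin n → Fin n → ℂ) (C : Fin n → Fin n → σ → K) :
    (DPn K W C).totalDegree ≤ n := det_deg _ fun _ _ => Lf_deg _ _ _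

theorem DPn_coeff (K : IntermediateField ℚ ℂ) (V : Submodule K ℂ) {n : ℕ} (W : Fin n → Fin n → ℂ)
    (hW : ∀ i j, W i j ∈ V) (C : Fin n → Fin n → σ → K) : CoeffIn (V1 K V) n (DPn K W C) :=
  det_coeff _ fun i j s => by rw [pow_one]; exact Lf_coeff K V _ (hW i j) _ _

end Tup

section Win

variable {K : Type*} [Field K] [Algebra K ℂ] {τ r : ℕ}

/-- the determinant polynomial -/
noncomputable def DWn {n : ℕ} (a : Fin n → Fin n → Fin τ → K) (c : Fin n → Fin n → Fin r → K) :
    MvPolynomial (Fin τ ⊕ Fin r) K := (Matrix.of fun i j => Lw (a i j) (c i j)).det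

theorem DWn_deg {n : ℕ} (a : Fin n → Fin n → Fin τ → K) (c : Fin n → Fin n → Fin r → K) :
    (DWn a c).totalDegree ≤ n := det_deg _ fun _ _ => Lw_deg _ _

theorem DWn_aeval {n : ℕ} (a : Fin n → Fin n → Fin τ → K) (c : Fin n → Fin n → Fin r → K) (w : Fin τ → ℂ)
    (l : Fin r → ℂ) : aeval (Sum.elim w l) (DWn a c) = (Mt (fun i j => ∑ q, a i j q • w q) c l).det := by
  rw [DWn, AlgHom.map_det]
  congr 1
  ext i j
  simp only [AlgHom.mapMatrix_apply, Matrix.map_apply, Matrix.of_apply, Lw_aeval, Mt]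

theorem DWn_aeval2 {n : ℕ} (a : Fin n → Fin n → Fin τ → K) (c : Fin n → Fin n → Fin r → K) (w : Fin τ → ℂ)
    (x : Fin r → ℂ)
    (h : aeval (Sum.elim (fun j => (C (w j) : MvPolynomial (Fin r) ℂ)) X) (DWn a c) = 0) :
    (Mt (fun i j => ∑ q, a i j q • w q) c x).det = 0 := by
  have h1 := congrArg (aeval x) h
  rw [DWn, AlgHom.map_det, AlgHom.map_det, map_zero] at h1
  rw [← h1]
  congr 1
  ext i j
  simp only [AlgHom.mapMatrix_apply, Matrix.map_apply, Matrix.of_apply, Lw_aeval2, Mt]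

end Win

end Pool.Agent.Y921.SR
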