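import Pool.Agent.Y916.Tup
import Pool.Agent.Y921.SR.Poly

/-!
# Singular matrices of logarithms: tuples and windows
-/

set_option autoImplicit false

open Module

namespace Pool.Agent.Y921.SR

open Pool.Agent.Y921.FE

section Small

variable {K A : Type*} [Field K] [Field A] [Algebra K A]

theorem zeroProp_small (V : Submodule K A) [Module.Finite K V] (hV : finrank K V ≤ 1) : ZeroProp V := by
  classical
  intro n hn M hM hdet
  obtain ⟨x, hx⟩ := finrank_le_one_iff.1 hV
  have h1 : ∀ i j, ∃ c : K, c • (x : A) = M i j := by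
    intro i j
    obtain ⟨c, hc⟩ := hx ⟨M i j, hM i j⟩
    exact ⟨c, congrArg Subtype.val hc⟩
  choose c hc using h1
  let i0 : Fin n := ⟨0, by omega⟩
  have hne : (Pi.single i0 1 : Fin n → K) ≠ 0 := fun h => one_ne_zero (α := K) (by simpa using congrFun h i0)
  by_cases hx0 : (x : A) = 0
  · refine ⟨Pi.single i0 1, Pi.single i0 1, hne, hne, ?_⟩
    refine Finset.sum_eq_zero fun i _ => Finset.sum_eq_zero fun j _ => ?_
    rw [← hc, hx0, smul_zero, smul_zero]
  · have h2 : M = (x : A) • (Matrix.of c).map (algebraMap K A) := by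
      ext i j
      rw [← hc i j, Matrix.smul_apply, Matrix.map_apply, Matrix.of_apply, smul_eq_mul, Algebra.smul_def, mul_comm]
    have h3 : (Matrix.of c).det = 0 := by
      have h4 := RingHom.map_det (algebraMap K A) (Matrix.of c)
      rw [RingHom.mapMatrix_apply] at h4
      rw [h2, Matrix.det_smul, ← h4] at hdet
      exact (map_eq_zero _).1 ((mul_eq_zero.1 hdet).resolve_left (pow_ne_zero _ hx0))
    obtain ⟨v, hv, hv0⟩ := Matrix.exists_mulVec_eq_zero_iff.2 h3
    refine ⟨Pi.single i0 1, v, hne, hv, ?_⟩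
    refine Finset.sum_eq_zero fun i _ => ?_
    have h4 : ∑ j, c i j * v j = 0 := congrFun hv0 i
    calc ∑ j, ((Pi.single i0 1 : Fin n → K) i * v j) • M i j
        = ((Pi.single i0 1 : Fin n → K) i * ∑ j, c i j * v j) • (x : A) := by
          rw [Finset.mul_sum, Finset.sum_smul]
          refine Finset.sum_congr rfl fun j _ => ?_
          rw [← hc, smul_smul]
          congr 1
          ring
      _ = 0 := by rw [h4, mul_zero, zero_smul]

end Small

/-- **Tuples.** -/
theorem tuples {r : ℕ} (θ : Fin r → ℂ) (hθ : ∀ j, IsAlgebraic ℚ (θ j)) (hinj : Function.Injective θ) (k d m : ℕ) :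
    ∃ c : ℝ, 0 < c ∧ ∃ C : ℝ, ∀ K : IntermediateField ℚ ℂ, FiniteDimensional ℚ K → finrank ℚ K ≤ d →
      ∀ V : Submodule K ℂ, Module.Finite K V → finrank K V ≤ m → ZeroProp V → ∀ T : ℕ, 1 ≤ T →
      {n : Fin k → ℕ | (∀ i, 2 ≤ n i ∧ n i ≤ T) ∧ ∃ l : Fin k × Fin r → ℂ,
        (∀ p, Complex.exp (l p) = n p.1 + θ p.2) ∧
        ¬ (finrank K (V ⊔ Submodule.span K (Set.range l) : Submodule K ℂ) = finrank K V + k * r ∧
          ZeroProp (V ⊔ Submodule.span K (Set.range l)))}.Finite ∧
      ({n : Fin k → ℕ | (∀ i, 2 ≤ n i ∧ n i ≤ T) ∧ ∃ l : Fin k × Fin r → ℂ,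
        (∀ p, Complex.exp (l p) = n p.1 + θ p.2) ∧
        ¬ (finrank K (V ⊔ Submodule.span K (Set.range l) : Submodule K ℂ) = finrank K V + k * r ∧
          ZeroProp (V ⊔ Submodule.span K (Set.range l)))}.ncard : ℝ) ≤ C * (T : ℝ) ^ ((k : ℝ) - c) := by
  set D : ℕ := m + k * r + 1 with hD
  obtain ⟨c, hc, C, hC⟩ := Pool.Agent.Y916.tuples θ hθ hinj k D ((d * (m + 1)) ^ D)
  refine ⟨c, hc, C, fun K hK hKd V hV hVm hV0 T hT => ?_⟩
  obtain ⟨h1, h1r⟩ := V1_fin K V d m hKd hVm
  obtain ⟨h2, h2r⟩ := finrank_pow_le (V1 K V) (d * (m + 1)) h1r D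
  obtain ⟨hfin, hle⟩ := hC (V1 K V ^ D) h2 h2r T hT
  have hone : (1 : ℂ) ∈ V1 K V := Submodule.mem_sup_right (by simp)
  have hsub : {n : Fin k → ℕ | (∀ i, 2 ≤ n i ∧ n i ≤ T) ∧ ∃ l : Fin k × Fin r → ℂ,
        (∀ p, Complex.exp (l p) = n p.1 + θ p.2) ∧
        ¬ (finrank K (V ⊔ Submodule.span K (Set.range l) : Submodule K ℂ) = finrank K V + k * r ∧
          ZeroProp (V ⊔ Submodule.span K (Set.range l)))} ⊆ {n : Fin k → ℕ | (∀ i, 2 ≤ n i ∧ n i ≤ T) ∧
      ∃ l : Fin k × Fin r → ℂ, (∀ p, Complex.exp (l p) = n p.1 + θ p.2) ∧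
        Pool.Agent.Y113.Rel D (V1 K V ^ D) l} := by
    rintro n ⟨hn, l, hl, hbad⟩
    refine ⟨hn, l, hl, ?_⟩
    by_contra hrel
    apply hbad
    have hg := extend V hV0 l (fun N hN W Cc hW h0 X => by
      have hND : N ≤ D := by
        rw [Fintype.card_prod, Fintype.card_fin, Fintype.card_fin] at hN
        omega
      have hP : DPn K W Cc = 0 := by
        by_contra hne
        exact hrel ⟨DPn K W Cc, hne, (DPn_deg K W Cc).trans hND,
          (DPn_coeff K V W hW Cc).mono hone hND, by rw [DPn_aeval]; exact h0⟩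
      rw [← DPn_aeval, hP, map_zero])
    rwa [Fintype.card_prod, Fintype.card_fin, Fintype.card_fin] at hg
  refine ⟨hfin.subset hsub, le_trans ?_ hle⟩
  exact_mod_cast Set.ncard_le_ncard hsub hfin

/-- **Windows over number fields.** -/
theorem window_field (r d m : ℕ) : ∃ E : ℕ, ∀ H t : ℕ, (H + 2) ^ E ≤ t →
    ∀ K : IntermediateField ℚ ℂ, FiniteDimensional ℚ K → finrank ℚ K ≤ d →
    ∀ V : Submodule K ℂ, Module.Finite K V → finrank K V ≤ m → ZeroProp V →
    ∃ S : Finset ℂ, S.card ≤ m + 2 ∧ ∀ β : Fin r → ℂ, Function.Injective β → (∀ i, β i ∉ S ∧ β i ≠ 0) →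
      (∀ i, ∃ p : Polynomial ℤ, p ≠ 0 ∧ p.natDegree ≤ d ∧ (∀ j, |p.coeff j| ≤ (H : ℤ)) ∧
        Polynomial.aeval (β i) p = 0) →
      ∀ l : Fin r → ℂ, (∀ i, Complex.exp (l i) = t + β i) →
        finrank K (V ⊔ Submodule.span K (Set.range l) : Submodule K ℂ) = finrank K V + r ∧
          ZeroProp (V ⊔ Submodule.span K (Set.range l)) := by
  classical
  obtain ⟨E, hE⟩ := Pool.Agent.Y916.t_window r d (m + r + 1) (m + 1 + 1)
  refine ⟨E, fun H t ht K hK hKd V hV hVm hV0 => ?_⟩
  obtain ⟨wV, hwV⟩ := exists_span V m hVm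
  set w : Fin (m + 1 + 1) → ℂ := Fin.cons (Real.log t : ℂ) (Fin.cons (2 * Real.pi * Complex.I) wV) with hw
  obtain ⟨S, hS, h⟩ := hE H t ht K hK hKd w
  have ht0 : 0 < t := lt_of_lt_of_le (by positivity) ht
  have hVw : V ≤ Submodule.span K (Set.range w) := by
    refine hwV.trans (Submodule.span_mono ?_)
    rintro _ ⟨i, rfl⟩
    exact ⟨i.succ.succ, by simp [hw]⟩
  refine ⟨S, hS, fun β hinj hβ hβa l hl => ?_⟩
  have hg := extend V hV0 l fun N hN w0 c hw0 h0 X => by
    rw [Fintype.card_fin] at hN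
    have h2 : ∀ i j, ∃ a : Fin (m + 1 + 1) → K, ∑ q, a q • w q = w0 i j := fun i j =>
      (Submodule.mem_span_range_iff_exists_fun K).1 (hVw (hw0 i j))
    choose a ha using h2
    have e0 : w0 = fun i j => ∑ q, a i j q • w q := by
      funext i j
      exact (ha i j).symm
    rw [e0] at h0 ⊢
    apply DWn_aeval2
    refine h β hinj (fun i => ⟨(hβ i).1, (hβ i).2, hβa i⟩) l (fun i => ?_) (DWn a c)
      ((DWn_deg a c).trans (by omega)) ?_
    · obtain ⟨n, hn⟩ := log_diff t ht0 (β i) (l i) (hl i)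
      rw [hn]
      refine Submodule.add_mem _ (Submodule.subset_span (Set.mem_insert_of_mem _ ⟨0, by simp [hw]⟩)) ?_
      have e3 : (n : ℂ) * (2 * Real.pi * Complex.I) = (n : K) • (2 * Real.pi * Complex.I) := by
        simp [Algebra.smul_def]
      rw [e3]
      exact Submodule.smul_mem _ _ (Submodule.subset_span (Set.mem_insert_of_mem _ ⟨1, by simp [hw]⟩))
    · rw [DWn_aeval]
      exact h0
  rwa [Fintype.card_fin] at hg

/-- **Windows of rational numbers.** -/
theorem window_rat (r m : ℕ) : ∃ E : ℕ, ∀ H t : ℕ, (H + 2) ^ E ≤ t →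
    ∀ V : Submodule ℚ ℂ, Module.Finite ℚ V → finrank ℚ V ≤ m → ZeroProp V →
    ∃ S : Finset ℚ, S.card ≤ m + 1 ∧ ∀ β : Fin r → ℚ, Function.Injective β →
      (∀ i, β i ∉ S ∧ β i ≠ 0 ∧ |(β i).num| ≤ H ∧ (β i).den ≤ H) →
      finrank ℚ (V ⊔ Submodule.span ℚ (Set.range fun i => ((Real.log (t + β i) : ℝ) : ℂ)) : Submodule ℚ ℂ) =
          finrank ℚ V + r ∧
        ZeroProp (V ⊔ Submodule.span ℚ (Set.range fun i => ((Real.log (t + β i) : ℝ) : ℂ))) := by
  classical
  obtain ⟨E, hE⟩ := Pool.Agent.Y916.t_window r 1 (m + r + 1) (m + 1)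
  refine ⟨E + 1, fun H t ht V hV hVm hV0 => ?_⟩
  have ht0 : 0 < t := lt_of_lt_of_le (by positivity) ht
  have htH : H < t := by
    have : H + 2 ≤ (H + 2) ^ (E + 1) := Nat.le_self_pow (by omega) _
    omega
  have htE : (H + 2) ^ E ≤ t := le_trans (Nat.pow_le_pow_right (by omega) (Nat.le_succ _)) ht
  obtain ⟨wV, hwV⟩ := exists_span V m hVm
  set w : Fin (m + 1) → ℂ := Fin.cons (Real.log t : ℂ) wV with hw
  obtain ⟨S, hS, h⟩ := hE H t htE (⊥ : IntermediateField ℚ ℂ) inferInstance (by rw [IntermediateField.finrank_bot]) w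
  have hVw : V ≤ Submodule.span ℚ (Set.range w) := by
    refine hwV.trans (Submodule.span_mono ?_)
    rintro _ ⟨i, rfl⟩
    exact ⟨i.succ, by simp [hw]⟩
  refine ⟨S.preimage (fun q : ℚ => (q : ℂ)) (Set.injOn_of_injective Rat.cast_injective), ?_, fun β hinj hβ => ?_⟩
  · refine le_trans ?_ hS
    refine Finset.card_le_card_of_injOn (fun q : ℚ => (q : ℂ)) ?_ (Set.injOn_of_injective Rat.cast_injective)
    intro q hq
    simpa using hq
  have hg := extend V hV0 (fun i => ((Real.log (t + β i) : ℝ) : ℂ)) fun N hN w0 c hw0 h0 X => by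
    rw [Fintype.card_fin] at hN
    have h2 : ∀ i j, ∃ a : Fin (m + 1) → ℚ, ∑ q, a q • w q = w0 i j := fun i j =>
      (Submodule.mem_span_range_iff_exists_fun ℚ).1 (hVw (hw0 i j))
    choose a ha using h2
    have e0 : w0 = fun i j => ∑ q, a i j q • w q := by
      funext i j
      exact (ha i j).symm
    -- transfer to the field `⊥`
    have key : ∀ x : Fin r → ℂ, Mt w0 c x =
        Mt (fun i j => ∑ q, (algebraMap ℚ (⊥ : IntermediateField ℚ ℂ) (a i j q)) • w q)
          (fun i j p => algebraMap ℚ (⊥ : IntermediateField ℚ ℂ) (c i j p)) x := by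
      intro x
      rw [e0]
      ext i j
      simp only [Mt, Matrix.of_apply, algebraMap_smul]
    rw [key] at h0 ⊢
    apply DWn_aeval2
    refine h (fun i => (β i : ℂ)) (fun i j hij => hinj (Rat.cast_injective hij)) (fun i => ⟨?_, ?_, ?_⟩)
      (fun i => ((Real.log (t + β i) : ℝ) : ℂ)) (fun i => ?_)
      (DWn (fun i j q => algebraMap ℚ (⊥ : IntermediateField ℚ ℂ) (a i j q))
        (fun i j p => algebraMap ℚ (⊥ : IntermediateField ℚ ℂ) (c i j p)))
      ((DWn_deg _ _).trans (by omega)) ?_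
    · have := (hβ i).1
      simpa using this
    · exact_mod_cast (hβ i).2.1
    · refine ⟨Polynomial.C ((β i).den : ℤ) * Polynomial.X - Polynomial.C (β i).num, ?_, ?_, ?_, ?_⟩
      · intro h4
        have h5 := congrArg (fun p => Polynomial.coeff p 1) h4
        simp only [Polynomial.coeff_sub, Polynomial.coeff_C_mul, Polynomial.coeff_X_one, mul_one, Polynomial.coeff_zero,
          Polynomial.coeff_C] at h5
        simp at h5
      · refine (Polynomial.natDegree_sub_C).le.trans ?_
        exact (Polynomial.natDegree_C_mul_le _ _).trans Polynomial.natDegree_X_le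
      · intro j
        rw [Polynomial.coeff_sub, Polynomial.coeff_C_mul, Polynomial.coeff_X, Polynomial.coeff_C]
        rcases Nat.lt_trichotomy j 1 with hj | hj | hj
        · have hj0 : j = 0 := by omega
          subst hj0
          simpa using (hβ i).2.2.1
        · subst hj
          simpa using (by exact_mod_cast (hβ i).2.2.2 : ((β i).den : ℤ) ≤ H)
        · have h6 : ¬ (1 = j) := by omega
          have h7 : ¬ (j = 0) := by omega
          simp [h6, h7]
      · simp only [map_sub, map_mul, Polynomial.aeval_C, Polynomial.aeval_X]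
        have h8 : ((β i).den : ℂ) * (β i : ℂ) = ((β i).num : ℂ) := by
          have := Rat.den_mul_eq_num (β i)
          exact_mod_cast this
        simp only [algebraMap_int_eq, eq_intCast, Int.cast_natCast]
        rw [h8, sub_self]
    · have hβt : (0 : ℝ) < 1 + (β i : ℝ) / t := by
        have h4 : |(β i : ℝ)| ≤ H := by
          have h5 : |(β i : ℚ)| ≤ |((β i).num : ℚ)| := by
            conv_lhs => rw [← Rat.num_div_den (β i)]
            rw [abs_div]
            refine div_le_self (abs_nonneg _) ?_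
            rw [Nat.abs_cast]
            exact_mod_cast (β i).pos
          have h6 : |((β i).num : ℚ)| ≤ H := by exact_mod_cast (hβ i).2.2.1
          exact_mod_cast h5.trans h6
        have h5 : (H : ℝ) < t := by exact_mod_cast htH
        have h6 := (abs_le.1 h4).1
        have h7 : (0 : ℝ) < t := by exact_mod_cast ht0
        have : 1 + (β i : ℝ) / t = (t + β i) / t := by field_simp
        rw [this]
        apply div_pos _ h7
        linarith
      have h7 : (0 : ℝ) < t := by exact_mod_cast ht0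
      have e4 : Real.log (t + β i) = Real.log t + Real.log (1 + (β i : ℝ) / t) := by
        rw [← Real.log_mul h7.ne' hβt.ne']
        congr 1
        field_simp
      have e5 : Complex.log (1 + (β i : ℂ) / t) = ((Real.log (1 + (β i : ℝ) / t) : ℝ) : ℂ) := by
        rw [Complex.ofReal_log hβt.le]
        push_cast
        rfl
      rw [e5, e4]
      push_cast
      rw [add_sub_cancel_right]
      exact Submodule.subset_span (Set.mem_insert_of_mem _ ⟨0, by simp [hw]⟩)
    · rw [DWn_aeval]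
      exact h0
  rwa [Fintype.card_fin] at hg

end Pool.Agent.Y921.SR
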