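import Mathlib

/-!
# Identically singular linear families of matrices

`V` is a `K`-space in a field `A` such that every singular matrix with entries in `V` has a zero coefficient after
some change of bases over `K` (`ZeroProp`). If `W` has entries in `V`, the `C p` have entries in `K` and
`det (W + ∑ X p C p) = 0` for all `X`, then there are nonzero `w`, `v` over `K` with `w W v = 0` and `w (C p) v = 0`.
-/

set_option autoImplicit false

open Module Matrix

namespace Pool.Agent.Y921.SR

/-- every singular matrix with entries in `V` has a zero coefficient after a change of bases over `K` -/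
def ZeroProp {K A : Type*} [Field K] [Field A] [Algebra K A] (V : Submodule K A) : Prop :=
  ∀ n : ℕ, 1 ≤ n → ∀ M : Matrix (Fin n) (Fin n) A, (∀ i j, M i j ∈ V) → M.det = 0 →
    ∃ w v : Fin n → K, w ≠ 0 ∧ v ≠ 0 ∧ ∑ i, ∑ j, (w i * v j) • M i j = 0

/-- a pencil singular outside `0` is singular at `0` -/
theorem det_pencil {F ι : Type*} [Field F] [Infinite F] [Fintype ι] [DecidableEq ι] (M0 M1 : Matrix ι ι F)
    (h : ∀ t : F, t ≠ 0 → (M0 + t • M1).det = 0) : M0.det = 0 := by
  classical
  set p : Polynomial F := (M0.map (⇑(Polynomial.C (R := F))) + (Polynomial.X : Polynomial F) •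
    M1.map (⇑(Polynomial.C (R := F)))).det with hp
  have he : ∀ t : F, p.eval t = (M0 + t • M1).det := by
    intro t
    have := RingHom.map_det (Polynomial.evalRingHom t) (M0.map (⇑(Polynomial.C (R := F))) +
      (Polynomial.X : Polynomial F) • M1.map (⇑(Polynomial.C (R := F))))
    rw [Polynomial.coe_evalRingHom] at this
    rw [hp, this]
    congr 1
    ext i j
    simp
    exact mul_comm _ _
  have hp0 : p = 0 := by
    apply Polynomial.eq_zero_of_infinite_isRoot
    refine Set.Infinite.mono (s := {t : F | t ≠ 0}) (fun t ht => ?_) ?_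
    · change p.eval t = 0
      rw [he, h t ht]
    · have : {t : F | t ≠ 0} = ({0} : Set F)ᶜ := by ext; simp
      rw [this]
      exact (Set.finite_singleton (0 : F)).infinite_compl
  have := he 0
  rw [hp0, Polynomial.eval_zero, zero_smul, add_zero] at this
  exact this.symm

/-- bordered product -/
theorem border {n r s : ℕ} {R : Type*} [CommRing R] (P : Matrix (Fin r) (Fin n) R) (P' : Matrix (Fin s) (Fin n) R)
    (C : Matrix (Fin n) (Fin n) R) (Q : Matrix (Fin n) (Fin r) R) (Q' : Matrix (Fin n) (Fin s) R) :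
    fromRows P P' * C * fromCols Q Q' = fromBlocks (P * C * Q) (P * C * Q') (P' * C * Q) (P' * C * Q') := by
  rw [fromRows_mul, fromRows_mul_fromCols]

section Max

variable {K : Type*} [Field K] {n : ℕ}

/-- `𝒞` has an element of rank at least `s` -/
def HasRank (𝒞 : Submodule K (Matrix (Fin n) (Fin n) K)) (s : ℕ) : Prop :=
  ∃ C ∈ 𝒞, ∃ (P : Matrix (Fin s) (Fin n) K) (Q : Matrix (Fin n) (Fin s) K), (P * C * Q).det ≠ 0

theorem HasRank.le {𝒞 : Submodule K (Matrix (Fin n) (Fin n) K)} {s : ℕ} (h : HasRank 𝒞 s) : s ≤ n := by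
  obtain ⟨C, -, P, Q, hd⟩ := h
  have h1 : (P * C * Q).rank = s := by
    rw [Matrix.rank_of_isUnit _ ((Matrix.isUnit_iff_isUnit_det _).2 (isUnit_iff_ne_zero.2 hd)), Fintype.card_fin]
  have h2 : (P * C * Q).rank ≤ n := by
    rw [Matrix.mul_assoc]
    exact (Matrix.rank_mul_le_left _ _).trans (Matrix.rank_le_width P)
  omega

theorem exists_max (𝒞 : Submodule K (Matrix (Fin n) (Fin n) K)) :
    ∃ r ≤ n, HasRank 𝒞 r ∧ ¬ HasRank 𝒞 (r + 1) := by
  classical
  have h0 : HasRank 𝒞 0 := ⟨0, 𝒞.zero_mem, 0, 0, by simp⟩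
  refine ⟨Nat.findGreatest (HasRank 𝒞) n, Nat.findGreatest_le n, Nat.findGreatest_spec (Nat.zero_le n) h0, fun h => ?_⟩
  have h1 := Nat.le_findGreatest h.le h
  omega

theorem det_eq_zero_of_not {𝒞 : Submodule K (Matrix (Fin n) (Fin n) K)} {r : ℕ} (h : ¬ HasRank 𝒞 (r + 1))
    {C : Matrix (Fin n) (Fin n) K} (hC : C ∈ 𝒞) (P : Matrix (Fin r ⊕ Fin 1) (Fin n) K)
    (Q : Matrix (Fin n) (Fin r ⊕ Fin 1) K) : (P * C * Q).det = 0 := by
  by_contra hne
  apply h
  refine ⟨C, hC, P.submatrix finSumFinEquiv.symm id, Q.submatrix id finSumFinEquiv.symm, ?_⟩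
  have : P.submatrix finSumFinEquiv.symm id * C * Q.submatrix id finSumFinEquiv.symm =
      (P * C * Q).submatrix finSumFinEquiv.symm finSumFinEquiv.symm := by
    ext i j
    simp [Matrix.mul_apply, Matrix.submatrix_apply]
  rw [this, Matrix.det_submatrix_equiv_self]
  exact hne

theorem one_by_one {R : Type*} [CommRing R] (M : Matrix (Fin 1) (Fin 1) R) (h : M.det = 0) : M = 0 := by
  ext i j
  have hi : i = 0 := Subsingleton.elim _ _
  have hj : j = 0 := Subsingleton.elim _ _
  rw [Matrix.det_unique] at h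
  subst hi hj
  simpa using h

/-- the kernels of an element of maximal rank are orthogonal for all elements -/
theorem orth_one [Infinite K] {𝒞 : Submodule K (Matrix (Fin n) (Fin n) K)} {r : ℕ} (h : ¬ HasRank 𝒞 (r + 1))
    {C0 : Matrix (Fin n) (Fin n) K} (hC0 : C0 ∈ 𝒞) {P : Matrix (Fin r) (Fin n) K} {Q : Matrix (Fin n) (Fin r) K}
    (hE : (P * C0 * Q).det ≠ 0) (w : Matrix (Fin 1) (Fin n) K) (v : Matrix (Fin n) (Fin 1) K)
    (hw : w * C0 * Q = 0) (hv : P * C0 * v = 0) {C : Matrix (Fin n) (Fin n) K} (hC : C ∈ 𝒞) : w * C * v = 0 := by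
  have h1 : w * C0 * v = 0 := by
    apply one_by_one
    have := det_eq_zero_of_not h hC0 (fromRows P w) (fromCols Q v)
    rw [border, hw, hv, det_fromBlocks_zero₁₂] at this
    exact (mul_eq_zero.1 this).resolve_left hE
  apply one_by_one
  have h2 : (fromBlocks (P * C0 * Q) 0 (w * C * Q) (w * C * v)).det = 0 := by
    apply det_pencil _ (fromBlocks (P * C * Q) (P * C * v) 0 0)
    intro t ht
    have h3 := det_eq_zero_of_not h (𝒞.add_mem hC0 (𝒞.smul_mem t hC)) (fromRows P w) (fromCols Q v)
    have h4 : fromRows P w * (C0 + t • C) * fromCols Q v =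
        fromBlocks 1 0 0 (t • 1) * (fromBlocks (P * C0 * Q) 0 (w * C * Q) (w * C * v) +
          t • fromBlocks (P * C * Q) (P * C * v) 0 0) := by
      rw [border, fromBlocks_smul, fromBlocks_add, fromBlocks_multiply]
      congr 1
      · simp [Matrix.mul_add, Matrix.add_mul]
      · simp [Matrix.mul_add, Matrix.add_mul, hv]
      · simp [Matrix.mul_add, Matrix.add_mul, hw]
      · simp [Matrix.mul_add, Matrix.add_mul, h1]
    rw [h4, det_mul, det_fromBlocks_zero₁₂] at h3
    rcases mul_eq_zero.1 h3 with h5 | h5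
    · exfalso
      rw [det_one, one_mul, det_smul, det_one] at h5
      simp [ht] at h5
    · exact h5
  rw [det_fromBlocks_zero₁₂] at h2
  exact (mul_eq_zero.1 h2).resolve_left hE

theorem orth [Infinite K] {𝒞 : Submodule K (Matrix (Fin n) (Fin n) K)} {r : ℕ} (h : ¬ HasRank 𝒞 (r + 1))
    {C0 : Matrix (Fin n) (Fin n) K} (hC0 : C0 ∈ 𝒞) {P : Matrix (Fin r) (Fin n) K} {Q : Matrix (Fin n) (Fin r) K}
    (hE : (P * C0 * Q).det ≠ 0) {s : ℕ} (w : Matrix (Fin s) (Fin n) K) (v : Matrix (Fin n) (Fin s) K)
    (hw : w * C0 * Q = 0) (hv : P * C0 * v = 0) {C : Matrix (Fin n) (Fin n) K} (hC : C ∈ 𝒞) : w * C * v = 0 := by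
  ext i j
  have h1 := orth_one h hC0 hE (w.submatrix (fun _ : Fin 1 => i) id) (v.submatrix id (fun _ : Fin 1 => j)) (by
    have : w.submatrix (fun _ : Fin 1 => i) id * C0 * Q = (w * C0 * Q).submatrix (fun _ : Fin 1 => i) id := by
      ext a b
      simp [Matrix.mul_apply]
    rw [this, hw]
    rfl) (by
    have : P * C0 * v.submatrix id (fun _ : Fin 1 => j) = (P * C0 * v).submatrix id (fun _ : Fin 1 => j) := by
      ext a b
      simp [Matrix.mul_apply]
    rw [this, hv]
    rfl) hC
  have h2 := congrFun (congrFun h1 0) 0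
  have h3 : (w.submatrix (fun _ : Fin 1 => i) id * C * v.submatrix id (fun _ : Fin 1 => j)) 0 0 = (w * C * v) i j := by
    simp [Matrix.mul_apply]
  rw [h3] at h2
  simpa using h2

/-- independent rows in the kernel -/
theorem exists_rows {r : ℕ} (hr : r ≤ n) (B : Matrix (Fin n) (Fin r) K) :
    ∃ w : Matrix (Fin (n - r)) (Fin n) K, LinearIndependent K w.row ∧ w * B = 0 := by
  classical
  let T : (Fin n → K) →ₗ[K] (Fin r → K) := Matrix.vecMulLinear B
  have h1 : n - r ≤ finrank K (LinearMap.ker T) := by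
    have h2 := LinearMap.finrank_range_add_finrank_ker T
    have h3 : finrank K (LinearMap.range T) ≤ r := by
      refine (Submodule.finrank_le _).trans ?_
      rw [Module.finrank_fintype_fun_eq_card, Fintype.card_fin]
    rw [Module.finrank_fintype_fun_eq_card, Fintype.card_fin] at h2
    omega
  let b := Module.finBasis K (LinearMap.ker T)
  refine ⟨Matrix.of fun i => (b (Fin.castLE h1 i) : Fin n → K), ?_, ?_⟩
  · have h2 : LinearIndependent K (fun i => (b (Fin.castLE h1 i) : Fin n → K)) :=
      (b.linearIndependent.comp _ (Fin.castLE_injective h1)).map' (LinearMap.ker T).subtype (Submodule.ker_subtype _)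
    exact h2
  · ext i j
    have h2 : T (b (Fin.castLE h1 i) : Fin n → K) = 0 := LinearMap.mem_ker.1 (b (Fin.castLE h1 i)).2
    have h3 : ((b (Fin.castLE h1 i) : Fin n → K) ᵥ* B) j = 0 := congrFun h2 j
    rw [Matrix.mul_apply]
    exact h3

/-- independent columns in the kernel -/
theorem exists_cols {r : ℕ} (hr : r ≤ n) (B : Matrix (Fin r) (Fin n) K) :
    ∃ v : Matrix (Fin n) (Fin (n - r)) K, LinearIndependent K v.col ∧ B * v = 0 := by
  obtain ⟨w, hw, h⟩ := exists_rows hr B.transpose
  refine ⟨w.transpose, hw, ?_⟩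
  rw [← Matrix.transpose_transpose B, ← Matrix.transpose_mul, h, Matrix.transpose_zero]

end Max

set_option linter.unusedSectionVars false

section Main

variable {K A σ : Type*} [Field K] [Field A] [CharZero K] [CharZero A] [Algebra K A] [Fintype σ]

/-- the bilinear form of a matrix -/
def bil {n : ℕ} (M : Matrix (Fin n) (Fin n) A) (w v : Fin n → K) : A := ∑ i, ∑ j, (w i * v j) • M i j

theorem bil_eq {n : ℕ} (M : Matrix (Fin n) (Fin n) A) (w v : Fin n → K) :
    bil M w v = (fun i => algebraMap K A (w i)) ⬝ᵥ (M *ᵥ (fun i => algebraMap K A (v i))) := by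
  unfold bil
  simp only [dotProduct, Matrix.mulVec, Finset.mul_sum, Algebra.smul_def, map_mul]
  refine Finset.sum_congr rfl fun i _ => Finset.sum_congr rfl fun j _ => ?_
  ring

theorem bil_mul {n s : ℕ} (M : Matrix (Fin n) (Fin n) A) (P : Matrix (Fin s) (Fin n) K) (Q : Matrix (Fin n) (Fin s) K)
    (a b : Fin s → K) :
    bil M (a ᵥ* P) (Q *ᵥ b) = bil (P.map (algebraMap K A) * M * Q.map (algebraMap K A)) a b := by
  rw [bil_eq, bil_eq]
  have h1 : (fun i => algebraMap K A ((a ᵥ* P) i)) = (fun i => algebraMap K A (a i)) ᵥ* P.map (algebraMap K A) := by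
    funext i
    simp [Matrix.vecMul, dotProduct]
  have h2 : (fun i => algebraMap K A ((Q *ᵥ b) i)) = Q.map (algebraMap K A) *ᵥ (fun i => algebraMap K A (b i)) := by
    funext i
    simp [Matrix.mulVec, dotProduct]
  rw [h1, h2, Matrix.mul_assoc, ← Matrix.mulVec_mulVec, ← Matrix.mulVec_mulVec, ← Matrix.dotProduct_mulVec]

/-- **Identically singular families.** -/
theorem family {V : Submodule K A} (hV : ZeroProp V) {n : ℕ} (W : Matrix (Fin n) (Fin n) A)
    (hW : ∀ i j, W i j ∈ V) (C : σ → Matrix (Fin n) (Fin n) K)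
    (hdet : ∀ X : σ → A, (W + ∑ p, X p • (C p).map (algebraMap K A)).det = 0) :
    ∃ w v : Fin n → K, w ≠ 0 ∧ v ≠ 0 ∧ bil W w v = 0 ∧ ∀ p, w ⬝ᵥ (C p *ᵥ v) = 0 := by
  classical
  have hinfK : Infinite K := inferInstance
  have hinfA : Infinite A := inferInstance
  set 𝒞 : Submodule K (Matrix (Fin n) (Fin n) K) := Submodule.span K (Set.range C) with h𝒞
  obtain ⟨r, hr, ⟨C0, hC0, P, Q, hE⟩, hmax⟩ := exists_max 𝒞
  obtain ⟨a, ha⟩ := (Submodule.mem_span_range_iff_exists_fun K).1 hC0
  obtain ⟨w, hwi, hw⟩ := exists_rows hr (C0 * Q)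
  obtain ⟨v, hvi, hv⟩ := exists_cols hr (P * C0)
  rw [← Matrix.mul_assoc] at hw
  have horth : ∀ D ∈ 𝒞, w * D * v = 0 := fun D hD => orth hmax hC0 hE w v hw hv hD
  -- the pencil in the direction `C0`
  set φ := algebraMap K A with hφ
  have hC0A : ∀ y : A, (W + y • C0.map φ).det = 0 := by
    intro y
    rw [← hdet fun p => y * φ (a p)]
    congr 2
    rw [← ha]
    ext i j
    simp only [Matrix.smul_apply, Matrix.map_apply, Matrix.sum_apply, smul_eq_mul, map_sum, Finset.mul_sum, map_mul]
    exact Finset.sum_congr rfl fun p _ => by ring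
  have hmm : ∀ {s t u : ℕ} (X : Matrix (Fin s) (Fin t) K) (Y : Matrix (Fin t) (Fin u) K),
      (X * Y).map φ = X.map φ * Y.map φ := fun X Y => Matrix.map_mul
  have hz0 : ∀ {s t : ℕ}, ((0 : Matrix (Fin s) (Fin t) K).map φ) = 0 := by
    intro s t
    ext i j
    simp
  have hEA : ((P * C0 * Q).map φ).det ≠ 0 := by
    have h1 := RingHom.map_det φ (P * C0 * Q)
    rw [RingHom.mapMatrix_apply] at h1
    rw [← h1]
    exact (map_ne_zero φ).2 hE
  have hs : (w.map φ * W * v.map φ).det = 0 := by
    have h0 : (fromBlocks ((P * C0 * Q).map φ) (P.map φ * W * v.map φ) 0 (w.map φ * W * v.map φ)).det = 0 := by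
      apply det_pencil _ (fromBlocks (P.map φ * W * Q.map φ) 0 (w.map φ * W * Q.map φ) 0)
      intro z hz
      have h1 : (fromRows (P.map φ) (w.map φ) * (W + z⁻¹ • C0.map φ) * fromCols (Q.map φ) (v.map φ)).det = 0 := by
        let e : Fin r ⊕ Fin (n - r) ≃ Fin n := finSumFinEquiv.trans (finCongr (by omega))
        have h2 : fromRows (P.map φ) (w.map φ) * (W + z⁻¹ • C0.map φ) * fromCols (Q.map φ) (v.map φ) =
            ((fromRows (P.map φ) (w.map φ)).submatrix id e * ((W + z⁻¹ • C0.map φ).submatrix e e) *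
              (fromCols (Q.map φ) (v.map φ)).submatrix e id) := by
          rw [Matrix.submatrix_mul_equiv, Matrix.submatrix_mul_equiv, Matrix.submatrix_id_id]
        rw [h2, det_mul, det_mul, Matrix.det_submatrix_equiv_self, hC0A, mul_zero, zero_mul]
      have h3 : fromBlocks ((P * C0 * Q).map φ) (P.map φ * W * v.map φ) 0 (w.map φ * W * v.map φ) +
          z • fromBlocks (P.map φ * W * Q.map φ) 0 (w.map φ * W * Q.map φ) 0 =
          (fromRows (P.map φ) (w.map φ) * (W + z⁻¹ • C0.map φ) * fromCols (Q.map φ) (v.map φ)) *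
            fromBlocks (z • 1) 0 0 1 := by
        rw [border, fromBlocks_smul, fromBlocks_add, fromBlocks_multiply]
        have e1 : P.map φ * C0.map φ * Q.map φ = (P * C0 * Q).map φ := by rw [hmm, hmm]
        have e2 : P.map φ * C0.map φ * v.map φ = 0 := by rw [← hmm, ← hmm, hv, hz0]
        have e3 : w.map φ * C0.map φ * Q.map φ = 0 := by rw [← hmm, ← hmm, hw, hz0]
        have e4 : w.map φ * C0.map φ * v.map φ = 0 := by rw [← hmm, ← hmm, horth C0 hC0, hz0]
        congr 1
        · simp only [Matrix.mul_add, Matrix.add_mul, Matrix.mul_smul, Matrix.smul_mul, e1, Matrix.mul_one, smul_add,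
            Matrix.mul_zero, add_zero, smul_smul, mul_inv_cancel₀ hz, one_smul]
          rw [add_comm]
        · simp only [Matrix.mul_add, Matrix.add_mul, Matrix.mul_smul, Matrix.smul_mul, e2, Matrix.mul_one, smul_zero,
            Matrix.mul_zero, add_zero, zero_add]
        · simp only [Matrix.mul_add, Matrix.add_mul, Matrix.mul_smul, Matrix.smul_mul, e3, Matrix.mul_one, smul_zero,
            Matrix.mul_zero, add_zero, zero_add]
        · simp only [Matrix.mul_add, Matrix.add_mul, Matrix.mul_smul, Matrix.smul_mul, e4, Matrix.mul_one, smul_zero,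
            Matrix.mul_zero, add_zero, zero_add]
      rw [h3, det_mul, h1, zero_mul]
    rw [det_fromBlocks_zero₂₁] at h0
    exact (mul_eq_zero.1 h0).resolve_left hEA
  have hs1 : 1 ≤ n - r := by
    by_contra h1
    have h2 : n - r = 0 := by omega
    have : IsEmpty (Fin (n - r)) := by rw [h2]; infer_instance
    rw [Matrix.det_isEmpty] at hs
    exact one_ne_zero hs
  obtain ⟨α, β, hα, hβ, hαβ⟩ := hV (n - r) hs1 (w.map φ * W * v.map φ) (fun i j => by
    rw [Matrix.mul_apply]
    refine Submodule.sum_mem _ fun k _ => ?_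
    rw [Matrix.mul_apply, Finset.sum_mul]
    refine Submodule.sum_mem _ fun l _ => ?_
    have : w.map φ i l * W l k * v.map φ k j = (w i l * v k j) • W l k := by
      rw [Algebra.smul_def, map_mul]
      simp only [Matrix.map_apply, hφ]
      ring
    rw [this]
    exact V.smul_mem _ (hW _ _)) hs
  refine ⟨α ᵥ* w, v *ᵥ β, ?_, ?_, ?_, ?_⟩
  · intro h0
    apply hα
    exact Matrix.vecMul_injective_iff.2 hwi (by change α ᵥ* w = 0 ᵥ* w; rw [h0, Matrix.zero_vecMul])
  · intro h0
    apply hβ
    exact Matrix.mulVec_injective_iff.2 hvi (by change v *ᵥ β = v *ᵥ 0; rw [h0, Matrix.mulVec_zero])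
  · rw [bil_mul]
    exact hαβ
  · intro p
    have h1 := horth (C p) (Submodule.subset_span ⟨p, rfl⟩)
    rw [Matrix.mulVec_mulVec, ← Matrix.dotProduct_mulVec, Matrix.mulVec_mulVec, ← Matrix.mul_assoc, h1,
      Matrix.zero_mulVec, dotProduct_zero]

/-- If the matrix is larger than the dimension of the space there is nothing to prove. -/
theorem large_space (V : Submodule K A) [Module.Finite K V] {n : ℕ} (hn : finrank K V < n)
    (M : Matrix (Fin n) (Fin n) A) (hM : ∀ i j, M i j ∈ V) :
    ∃ w v : Fin n → K, w ≠ 0 ∧ v ≠ 0 ∧ bil M w v = 0 := by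
  classical
  have hn0 : 0 < n := by omega
  let j0 : Fin n := ⟨0, hn0⟩
  let T : (Fin n → K) →ₗ[K] V :=
    { toFun := fun w => ⟨∑ i, w i • M i j0, Submodule.sum_mem _ (fun i _ =>
        Submodule.smul_mem _ _ (hM i j0))⟩
      map_add' := by
        intro a b
        apply Subtype.ext
        simp [add_smul, Finset.sum_add_distrib]
      map_smul' := by
        intro a b
        apply Subtype.ext
        simp [mul_smul, Finset.smul_sum] }
  have hker : LinearMap.ker T ≠ ⊥ := by
    intro h
    have h1 := LinearMap.finrank_le_finrank_of_injective (LinearMap.ker_eq_bot.1 h)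
    rw [Module.finrank_fintype_fun_eq_card, Fintype.card_fin] at h1
    omega
  obtain ⟨w, hw, hw0⟩ := (Submodule.ne_bot_iff _).1 hker
  refine ⟨w, Pi.single j0 1, hw0, ?_, ?_⟩
  · intro h
    have := congrFun h j0
    simp at this
  · have h1 : ∑ i, w i • M i j0 = 0 := congrArg Subtype.val (LinearMap.mem_ker.1 hw)
    rw [← h1]
    unfold bil
    refine Finset.sum_congr rfl fun i _ => ?_
    rw [Finset.sum_eq_single j0]
    · simp
    · intro j _ hj
      simp [hj]
    · intro h
      exact absurd (Finset.mem_univ _) h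

/-- the matrix `W + ∑ C p X p` -/
def Mt {n : ℕ} (W : Fin n → Fin n → A) (C : Fin n → Fin n → σ → K) (X : σ → A) : Matrix (Fin n) (Fin n) A :=
  Matrix.of fun i j => W i j + ∑ p, C i j p • X p

/-- **Extension theorem.** -/
theorem extend (V : Submodule K A) [Module.Finite K V] (hV : ZeroProp V) (l : σ → A)
    (h : ∀ n : ℕ, n ≤ finrank K V + Fintype.card σ + 1 → ∀ (W : Fin n → Fin n → A) (C : Fin n → Fin n → σ → K),
      (∀ i j, W i j ∈ V) → (Mt W C l).det = 0 → ∀ X : σ → A, (Mt W C X).det = 0) :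
    finrank K (V ⊔ Submodule.span K (Set.range l) : Submodule K A) = finrank K V + Fintype.card σ ∧
      ZeroProp (V ⊔ Submodule.span K (Set.range l)) := by
  classical
  have h1 : ∀ (w : A) (c : σ → K), w ∈ V → w + ∑ p, c p • l p = 0 → ∀ p, c p = 0 := by
    intro w c hw h0 p
    have h2 := h 1 (by omega) (fun _ _ => w) (fun _ _ => c) (fun _ _ => hw) (by
      rw [Matrix.det_unique]; simpa [Mt] using h0) (l + Pi.single p 1)
    rw [Matrix.det_unique] at h2
    simp only [Mt, Matrix.of_apply, Pi.add_apply, smul_add, Finset.sum_add_distrib] at h2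
    have h4 : ∑ x, c x • (Pi.single p (1 : A) : σ → A) x = algebraMap K A (c p) := by
      rw [Finset.sum_eq_single p]
      · simp [Algebra.smul_def]
      · intro b _ hb
        simp [hb]
      · simp
    rw [h4, ← add_assoc, h0, zero_add] at h2
    exact (map_eq_zero _).1 h2
  have hli : LinearIndependent K l := by
    rw [Fintype.linearIndependent_iff]
    intro g hg
    exact h1 0 g V.zero_mem (by rw [zero_add, hg])
  have hdis : V ⊓ Submodule.span K (Set.range l) = ⊥ := by
    rw [Submodule.eq_bot_iff]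
    rintro x ⟨hxV, hxS⟩
    obtain ⟨c, hc⟩ := (Submodule.mem_span_range_iff_exists_fun K).1 hxS
    have h2 := h1 (-x) c (V.neg_mem hxV) (by rw [hc]; ring)
    rw [← hc]
    exact Finset.sum_eq_zero fun p _ => by rw [h2 p, zero_smul]
  have hf : Module.Finite K (Submodule.span K (Set.range l)) := FiniteDimensional.span_of_finite K (Set.finite_range l)
  have hdim : finrank K (V ⊔ Submodule.span K (Set.range l) : Submodule K A) = finrank K V + Fintype.card σ := by
    have h2 := Submodule.finrank_sup_add_finrank_inf_eq V (Submodule.span K (Set.range l))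
    rw [hdis, finrank_bot, add_zero, finrank_span_eq_card hli] at h2
    exact h2
  refine ⟨hdim, fun n hn M hM hdet => ?_⟩
  rcases lt_or_ge (finrank K V + Fintype.card σ) n with hlt | hge
  · obtain ⟨w, v, hw, hv, hwv⟩ := large_space (V ⊔ Submodule.span K (Set.range l)) (by omega) M hM
    exact ⟨w, v, hw, hv, hwv⟩
  · have h2 : ∀ i j, ∃ (w : A) (c : σ → K), w ∈ V ∧ M i j = w + ∑ p, c p • l p := by
      intro i j
      obtain ⟨w, hw, s, hs, hws⟩ := Submodule.mem_sup.1 (hM i j)
      obtain ⟨c, hc⟩ := (Submodule.mem_span_range_iff_exists_fun K).1 hs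
      exact ⟨w, c, hw, by rw [hc, hws]⟩
    choose W C hW hWC using h2
    have hMt : Mt W C l = M := by
      ext i j
      simp only [Mt, Matrix.of_apply, ← hWC]
    have h3 := h n (by omega) W C hW (by rw [hMt, hdet])
    obtain ⟨w, v, hw, hv, h4, h5⟩ := family hV (Matrix.of W) hW (fun p => Matrix.of fun i j => C i j p) (by
      intro X
      rw [← h3 X]
      congr 1
      ext i j
      simp only [Mt, Matrix.add_apply, Matrix.of_apply, Matrix.sum_apply, Matrix.smul_apply, Matrix.map_apply,
        smul_eq_mul]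
      congr 1
      exact Finset.sum_congr rfl fun p _ => by rw [Algebra.smul_def, mul_comm])
    refine ⟨w, v, hw, hv, ?_⟩
    unfold bil at h4
    simp only [Matrix.of_apply] at h4
    have h6 : ∀ p, ∑ i, ∑ j, (w i * v j) * C i j p = 0 := by
      intro p
      rw [← h5 p]
      simp only [dotProduct, Matrix.mulVec, Matrix.of_apply, Finset.mul_sum]
      exact Finset.sum_congr rfl fun i _ => Finset.sum_congr rfl fun j _ => by ring
    calc ∑ i, ∑ j, (w i * v j) • M i j = (∑ i, ∑ j, (w i * v j) • W i j) +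
          ∑ p, (∑ i, ∑ j, (w i * v j) * C i j p) • l p := by
          simp only [hWC, smul_add, Finset.sum_add_distrib, Finset.smul_sum, Finset.sum_smul, smul_smul]
          congr 1
          rw [Finset.sum_comm (s := (Finset.univ : Finset σ))]
          refine Finset.sum_congr rfl fun i _ => ?_
          rw [Finset.sum_comm (s := (Finset.univ : Finset σ))]
      _ = 0 := by
          rw [h4, zero_add]
          exact Finset.sum_eq_zero fun p _ => by rw [h6 p, zero_smul]

end Main

end Pool.Agent.Y921.SR
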